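import Pool.Agent.Helper46.NU.Names

/-!
# MP_1fe1ca_lc, packet IJ2: the injections for a good code
-/

open MeasureTheory Filter Topology Set

noncomputable section

namespace NU.PkIJ2

open Pool.Agent.Helper97.Ku

/-- The finite set of the members of `F` with the largest element `n`. -/
theorem fin_last (n : ℕ) (F : Set (Finset ℕ)) : {t ∈ F | LastN t n}.Finite := by
  refine Set.Finite.subset (Finset.finite_toSet (Finset.range (n + 1)).powerset) ?_
  intro t ht
  simp only [Finset.coe_powerset, Set.mem_preimage, Set.mem_powerset_iff]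
  intro m hm
  have := ht.2.2 m hm
  simp only [Finset.coe_range, Set.mem_Iio]
  omega

/-- The choice of the injections. -/
theorem exists_g (k n : ℕ) (hkn : k ≤ n) :
    ∃ g : Finset (Finset ℕ) → Finset ℕ → Finset ℕ, ∀ T : Finset (Finset ℕ),
      T.card * 2 ^ k ≤ 2 ^ n → (∀ t ∈ T, g T t ⊆ Finset.Ico k n) ∧
        ∀ t ∈ T, ∀ t' ∈ T, g T t = g T t' → t = t' := by
  have h : ∀ T : Finset (Finset ℕ), ∃ h : Finset ℕ → Finset ℕ,
      T.card * 2 ^ k ≤ 2 ^ n → (∀ t ∈ T, h t ⊆ Finset.Ico k n) ∧
        ∀ t ∈ T, ∀ t' ∈ T, h t = h t' → t = t' := by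
    intro T
    by_cases hT : T.card * 2 ^ k ≤ 2 ^ n
    · have hc : T.card ≤ (Finset.Ico k n).powerset.card := by
        rw [Finset.card_powerset, Nat.card_Ico]
        have h1 : 2 ^ n = 2 ^ (n - k) * 2 ^ k := by
          rw [← pow_add]; congr 1; omega
        rw [h1] at hT
        exact Nat.le_of_mul_le_mul_right hT (by positivity)
      have hc' : Fintype.card {t // t ∈ T} ≤ Fintype.card {u // u ∈ (Finset.Ico k n).powerset} := by
        rw [Fintype.card_coe, Fintype.card_coe]
        exact hc
      obtain ⟨f⟩ := Function.Embedding.nonempty_of_card_le hc'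
      classical
      refine ⟨fun t => if ht : t ∈ T then (f ⟨t, ht⟩).1 else ∅, fun _ => ⟨?_, ?_⟩⟩
      · intro t ht
        simp only [ht, dif_pos]
        exact Finset.mem_powerset.1 (f ⟨t, ht⟩).2
      · intro t ht t' ht' he
        simp only [ht, ht', dif_pos] at he
        have := f.injective (Subtype.ext he)
        exact congrArg Subtype.val this
    · exact ⟨fun _ => ∅, fun h => absurd h hT⟩
  choose g hg using h
  exact ⟨g, hg⟩

theorem eq_eq_le {L : Type} [CompleteBooleanAlgebra L] (x y z : BSet L) :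
    x.eq y ⊓ x.eq z ≤ y.eq z := by
  rw [BSet.eq_comm' x y]; exact BSet.eq_trans y x z

theorem ij2 (ehom : G_EHOM) (nat : G_NAT) (fn1 : G_FN1) (fn2 : G_FN2) (par : G_PAR)
    (ex1 : G_EX1) (cdn : G_CDN) : G_IJ2 := by
  intro S L _ e he k n F hF hgood hkn
  obtain ⟨-, hbot, -, -, hinf, hcount, -⟩ := ehom S L e he
  obtain ⟨hcd1, hcd2⟩ := cdn S L e he F hF
  obtain ⟨-, hpe, hap⟩ := par L
  obtain ⟨-, -, hfe, -⟩ := fn1 L
  obtain ⟨hlst, hlst2, hQ, -, -⟩ := fn2 L
  obtain ⟨g, hg⟩ := exists_g k n hkn
  let E : Finset (Finset ℕ) × Finset ℕ → Set (Pt S) := fun p =>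
    {z | (∀ t, t ∈ p.1 ↔ (t ∈ F z ∧ LastN t n)) ∧ p.2 ∈ p.1}
  have hEm : ∀ p, MeasurableSet (E p) := by
    intro p
    have h1 : E p = (⋂ t : Finset ℕ, {z | t ∈ p.1 ↔ (t ∈ F z ∧ LastN t n)}) ∩
        {z | p.2 ∈ p.1} := by
      ext z
      simp only [E, Set.mem_ofPred_eq, Set.mem_inter_iff, Set.mem_iInter]
    rw [h1]
    refine MeasurableSet.inter (MeasurableSet.iInter fun t => ?_) (MeasurableSet.const _)
    by_cases ht : t ∈ p.1 <;> by_cases hl : LastN t n
    · simp only [ht, hl, and_true, true_iff]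
      exact hF t
    · simp only [ht, hl, and_false, true_iff]
      exact MeasurableSet.const _
    · simp only [ht, hl, and_true, false_iff]
      exact (hF t).compl
    · simp only [ht, hl, and_false, false_iff, not_false_iff]
      exact MeasurableSet.const _
  have hEgood : ∀ p, (E p).Nonempty → p.1.card * 2 ^ k ≤ 2 ^ n ∧ p.2 ∈ p.1 := by
    rintro p ⟨z, hz1, hz2⟩
    refine ⟨?_, hz2⟩
    have h1 := (hgood z).card n
    have h2 : ({t ∈ F z | LastN t n} : Set (Finset ℕ)) = (p.1 : Set (Finset ℕ)) := by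
      ext t
      simp only [Set.mem_ofPred_eq, Finset.mem_coe]
      exact (hz1 t).symm
    rw [h2, Set.ncard_coe_finset] at h1
    exact h1
  have hEdisj : ∀ p p', p.1 ≠ p'.1 → e (E p) ⊓ e (E p') = ⊥ := by
    intro p p' hpp
    rw [← (hinf _ _ (hEm p) (hEm p')).1]
    have : E p ∩ E p' = ∅ := by
      ext z
      simp only [Set.mem_inter_iff, Set.mem_empty_iff_false, iff_false]
      rintro ⟨⟨h1, -⟩, h2, -⟩
      exact hpp (Finset.ext fun t => (h1 t).trans (h2 t).symm)
    rw [this, hbot]
  have hEemp : ∀ p, ¬ (E p).Nonempty → e (E p) = ⊥ := by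
    intro p hp
    rw [Set.not_nonempty_iff_eq_empty.1 hp, hbot]
  let f : BSet L := BSet.mk (Finset (Finset ℕ) × Finset ℕ)
    (fun p => kpr (fsN p.2) (fsN (g p.1 p.2))) (fun p => e (E p))
  have hapf : ∀ a c : BSet L, apV f a c =
      ⨆ p : Finset (Finset ℕ) × Finset ℕ,
        (e (E p) ⊓ (a.eq (fsN p.2) ⊓ c.eq (fsN (g p.1 p.2)))) := by
    intro a c
    rw [hap]
    change (kpr a c).mem (BSet.mk _ _ _) = _
    rw [BSet.mem_mk]
    refine iSup_congr fun p => ?_
    rw [hpe]
  rw [eq_top_iff]
  unfold injV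
  refine le_trans ?_ (le_iSup _ f)
  refine le_inf (le_iInf fun a => ?_) (le_iInf fun a => le_iInf fun a' => le_iInf fun b => ?_)
  · rw [le_himp_iff, top_inf_eq]
    have h1 : a.mem (cdN e F) ⊓ lstV a (nn n) ≤ ⨆ t : Finset ℕ, ⨆ _ : LastN t n,
        ⨆ T : Finset (Finset ℕ), (a.eq (fsN t) ⊓ e (E (T, t))) := by
      refine le_trans (inf_le_inf_left _ (hlst n a)) ?_
      rw [inf_iSup_eq]
      refine iSup_mono fun t => ?_
      rw [inf_iSup_eq]
      refine iSup_mono fun hl => ?_
      have h2 : a.mem (cdN e F) ⊓ a.eq (fsN t) ≤ a.eq (fsN t) ⊓ e {z | t ∈ F z} := by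
        refine le_inf inf_le_right ?_
        rw [← hcd2 t, inf_comm]
        exact BSet.mem_congr_left a (fsN t) _
      refine le_trans h2 ?_
      have h3 : {z | t ∈ F z} = ⋃ T : Finset (Finset ℕ), E (T, t) := by
        ext z
        simp only [Set.mem_ofPred_eq, Set.mem_iUnion, E]
        constructor
        · intro hz
          refine ⟨(fin_last n (F z)).toFinset, ?_, ?_⟩
          · intro s
            simp only [Set.Finite.mem_toFinset, Set.mem_ofPred_eq]
          · simp only [Set.Finite.mem_toFinset, Set.mem_ofPred_eq]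
            exact ⟨hz, hl⟩
        · rintro ⟨T, h4, h5⟩
          exact ((h4 t).1 h5).1
      rw [h3, (hcount _ _ fun T => hEm (T, t)).1, inf_iSup_eq]
    refine le_trans h1 ?_
    refine iSup_le fun t => iSup_le fun hl => iSup_le fun T => ?_
    by_cases hne : (E (T, t)).Nonempty
    swap
    · rw [hEemp _ hne, inf_bot_eq]; exact bot_le
    obtain ⟨hcard, htT⟩ := hEgood _ hne
    obtain ⟨hg1, hg2⟩ := hg T hcard
    refine le_trans ?_ (le_iSup _ (fsN (g T t)))
    refine le_inf ?_ ?_
    · have h4 := hQ (g T t) k n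
      rw [bo_true (hg1 t htT)] at h4
      exact le_trans le_top h4.ge
    · refine le_iInf fun c => ?_
      unfold iffV
      refine le_inf ?_ ?_
      · rw [le_himp_iff, hapf, inf_iSup_eq]
        refine iSup_le fun p => ?_
        by_cases hT : T = p.1
        · by_cases ht : t = p.2
          · rw [hT, ht]
            exact le_trans inf_le_right (le_trans inf_le_right inf_le_right)
          · have h5 : a.eq (fsN t) ⊓ a.eq (fsN p.2) ≤ ⊥ := by
              refine le_trans (eq_eq_le a _ _) ?_
              rw [hfe, bo_false ht]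
            refine le_trans ?_ (le_trans h5 bot_le)
            exact le_inf (le_trans inf_le_left inf_le_left)
              (le_trans inf_le_right (le_trans inf_le_right inf_le_left))
        · have h5 : e (E (T, t)) ⊓ e (E p) ≤ ⊥ := (hEdisj (T, t) p hT).le
          refine le_trans ?_ (le_trans h5 bot_le)
          exact le_inf (le_trans inf_le_left inf_le_right) (le_trans inf_le_right inf_le_left)
      · rw [le_himp_iff, hapf]
        refine le_trans ?_ (le_iSup _ (T, t))
        refine le_inf (le_trans inf_le_left inf_le_right) (le_inf ?_ inf_le_right)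
        exact le_trans inf_le_left inf_le_left
  · rw [le_himp_iff, top_inf_eq]
    refine le_trans (le_trans inf_le_right inf_le_right) ?_
    rw [hapf, hapf, iSup_inf_eq]
    refine iSup_le fun p => ?_
    rw [inf_iSup_eq]
    refine iSup_le fun p' => ?_
    by_cases hT : p.1 = p'.1
    swap
    · refine le_trans (le_inf (le_trans inf_le_left inf_le_left)
        (le_trans inf_le_right inf_le_left)) (le_trans (hEdisj p p' hT).le bot_le)
    by_cases hne : (E p).Nonempty
    swap
    · rw [hEemp _ hne]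
      exact le_trans (le_trans inf_le_left inf_le_left) bot_le
    by_cases hne' : (E p').Nonempty
    swap
    · rw [hEemp _ hne']
      exact le_trans (le_trans inf_le_right inf_le_left) bot_le
    obtain ⟨hcard, ht⟩ := hEgood _ hne
    obtain ⟨-, ht'⟩ := hEgood _ hne'
    by_cases hgg : g p.1 p.2 = g p'.1 p'.2
    swap
    · have h5 : b.eq (fsN (g p.1 p.2)) ⊓ b.eq (fsN (g p'.1 p'.2)) ≤ ⊥ := by
        refine le_trans (eq_eq_le b _ _) ?_
        rw [hfe, bo_false hgg]
      refine le_trans ?_ (le_trans h5 bot_le)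
      exact le_inf (le_trans inf_le_left (le_trans inf_le_right inf_le_right))
        (le_trans inf_le_right (le_trans inf_le_right inf_le_right))
    have htt : p.2 = p'.2 := by
      rw [← hT] at hgg ht'
      exact (hg p.1 hcard).2 _ ht _ ht' hgg
    rw [← htt]
    refine le_trans (b := a.eq (fsN p.2) ⊓ a'.eq (fsN p.2)) ?_ ?_
    · exact le_inf (le_trans inf_le_left (le_trans inf_le_right inf_le_left))
        (le_trans inf_le_right (le_trans inf_le_right inf_le_left))
    · rw [BSet.eq_comm' a' (fsN p.2)]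
      exact BSet.eq_trans _ _ _

end NU.PkIJ2
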